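import Pool.Agent.Lib.H8.Col4b

set_option maxHeartbeats 400000

namespace Pool.Agent.Results.MP_c46995_nt.Shift
open PowerSeries Pool.Agent.Lib.H8.Col4

/-- The power series 1/(1 - x^d) over the integers (d ≥ 1). -/
noncomputable def geo (d : ℕ) : ℤ⟦X⟧ := invOfUnit (1 - X ^ d) 1

/-- S_{4,t}(n): coefficient of x^n in (1-x)^{-t} ∏_i (1-x^{4^i})^{-3t}; the factors with
i > n are 1 modulo x^{n+1}, so they are left out. -/
noncomputable def S (t n : ℕ) : ℤ :=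
  coeff n (geo 1 ^ t * ∏ i ∈ Finset.range (n + 1), geo (4 ^ i) ^ (3 * t))

lemma geo_mul (d : ℕ) (hd : d ≠ 0) : geo d * (1 - X ^ d) = 1 := by
  rw [mul_comm]
  exact mul_invOfUnit _ _ (by simp [hd])

lemma exF (m : ℕ) : ∃ F : ℤ⟦X⟧, F * Phi ^ m = 1 ∧ ∀ n, S m n = coeff n F := by
  have h0 : constantCoeff Phi = 1 := by simpa using coeff0_Phi
  have hF : invOfUnit (Phi ^ m) 1 * Phi ^ m = 1 := by
    rw [mul_comm]
    exact mul_invOfUnit _ _ (by simp [h0])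
  refine ⟨_, hF, fun n => ?_⟩
  generalize invOfUnit (Phi ^ m) 1 = F at hF
  obtain ⟨E, h1, h2⟩ := W_prod (n + 1)
  have hI : (geo 1 ^ m * ∏ i ∈ Finset.range (n + 1), geo (4 ^ i) ^ (3 * m)) * Phi ^ m
      = E ^ m := by
    rw [Phi, h2]
    have a1 : geo 1 * (1 - X) = 1 := by simpa using geo_mul 1 one_ne_zero
    have a2 : (∏ i ∈ Finset.range (n + 1), geo (4 ^ i) ^ (3 * m)) *
        (∏ i ∈ Finset.range (n + 1), (1 - X ^ (4 ^ i)) ^ 3) ^ m = 1 := by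
      rw [← Finset.prod_pow, ← Finset.prod_mul_distrib]
      refine Finset.prod_eq_one fun i _ => ?_
      rw [← pow_mul, ← mul_pow, geo_mul _ (by positivity), one_pow]
    calc _ = (geo 1 * (1 - X)) ^ m * ((∏ i ∈ Finset.range (n + 1), geo (4 ^ i) ^ (3 * m)) *
        (∏ i ∈ Finset.range (n + 1), (1 - X ^ (4 ^ i)) ^ 3) ^ m) * E ^ m := by
          simp only [mul_pow]; ring
      _ = E ^ m := by rw [a1, a2]; simp
  unfold S
  generalize (geo 1 ^ m * ∏ i ∈ Finset.range (n + 1), geo (4 ^ i) ^ (3 * m)) = I at hI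
  have h3 : X ^ (4 ^ (n + 1)) ∣ I - F := by
    have e : I - F = (E ^ m - 1 ^ m) * F := by
      linear_combination F * hI - I * hF
    rw [e]
    exact (h1.trans (sub_dvd_pow_sub_pow E 1 m)).mul_right _
  have h4 := X_pow_dvd_iff.1 h3 n
    ((Nat.lt_succ_self n).trans (Nat.lt_pow_self (by norm_num)))
  rw [map_sub] at h4
  linarith

lemma struct2 (u : ℤ⟦X⟧) (o b : ℕ) :
    ∃ z : ℤ⟦X⟧, (1 + 8 * u) ^ (o * 2 ^ b) = 1 + 2 ^ (b + 3) * (o * u + 4 * z) := by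
  induction b with
  | zero =>
    obtain ⟨z, hz⟩ := one_add_pow 8 u o
    exact ⟨2 * z, by rw [pow_zero, mul_one, hz]; ring⟩
  | succ b ih =>
    obtain ⟨z, hz⟩ := ih
    refine ⟨z + 2 ^ b * (o * u + 4 * z) ^ 2, ?_⟩
    rw [pow_succ 2 b, ← mul_assoc, pow_mul, hz]; ring

lemma val (u : ℤ⟦X⟧) (hu : Phi ^ 4 = 1 + 8 * u) (o b n : ℕ) :
    ∃ z : ℤ, S (4 * (o * 2 ^ b)) (n + 1) = 2 ^ (b + 3) * (-(o * coeff (n + 1) u) + 2 ^ 2 * z) := by
  obtain ⟨F, hF, hS⟩ := exF (4 * (o * 2 ^ b))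
  obtain ⟨z, hz⟩ := struct2 u o b
  rw [pow_mul, hu, hz] at hF
  have e : F = 1 + 2 ^ (b + 3) * (-(o * u) + 2 ^ 2 *
      (-z + 2 ^ (b + 1) * (o * u + 4 * z) ^ 2 * F)) := by
    linear_combination (1 - 2 ^ (b + 3) * (o * u + 4 * z)) * hF
  refine ⟨coeff (n + 1) (-z + 2 ^ (b + 1) * (o * u + 4 * z) ^ 2 * F), ?_⟩
  rw [hS]
  conv_lhs => rw [e]
  rw [map_add, coeff_one, if_neg (by omega), zero_add, coeff_pow2_mul, map_add, map_neg,
    coeff_nat_mul, coeff_pow2_mul]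

lemma em (b : ℕ) (a : ℤ) (j : ℕ) (h1 : (2 : ℤ) ^ j ∣ a) (h2 : ¬ (2 : ℤ) ^ (j + 1) ∣ a) :
    emultiplicity (4 : ℤ) (2 ^ b * a) = ((b + j) / 2 : ℕ) := by
  rw [emultiplicity_eq_coe]
  constructor
  · rw [show (4 : ℤ) = 2 ^ 2 by norm_num, ← pow_mul]
    refine (pow_dvd_pow 2 (show 2 * ((b + j) / 2) ≤ b + j by omega)).trans ?_
    rw [pow_add]
    exact mul_dvd_mul_left _ h1
  · intro h
    apply h2
    rw [show (4 : ℤ) = 2 ^ 2 by norm_num, ← pow_mul] at h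
    have h3 := (pow_dvd_pow 2 (show b + (j + 1) ≤ 2 * ((b + j) / 2 + 1) by omega)).trans h
    rw [pow_add] at h3
    exact (mul_dvd_mul_iff_left (by positivity)).1 h3

theorem result (s m n : ℕ) (hs : 3 ≤ s) :
    emultiplicity (4 : ℤ) (S (2 ^ s * m + 2 ^ (s - 1)) n)
      = emultiplicity (4 : ℤ) (S (2 ^ (s - 1)) n) := by
  obtain ⟨b, rfl⟩ : ∃ b, s = b + 3 := ⟨s - 3, by omega⟩
  have e1 : 2 ^ (b + 3) * m + 2 ^ (b + 3 - 1) = 4 * ((2 * m + 1) * 2 ^ b) := by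
    rw [show b + 3 - 1 = b + 2 by omega]; ring
  have e2 : 2 ^ (b + 3 - 1) = 4 * (1 * 2 ^ b) := by
    rw [show b + 3 - 1 = b + 2 by omega]; ring
  rw [e1, e2]
  cases n with
  | zero =>
    obtain ⟨F, hF, hS⟩ := exF (4 * ((2 * m + 1) * 2 ^ b))
    obtain ⟨G, hG, hT⟩ := exF (4 * (1 * 2 ^ b))
    rw [hS, hT, coeff0_F F _ hF, coeff0_F G _ hG]
  | succ n =>
    obtain ⟨u, hu⟩ := Phi_two_pow 2
    norm_num at hu
    have hun : coeff (n + 1) (Phi ^ 4) = 8 * coeff (n + 1) u := by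
      have := coeff_pow2_mul 3 u (n + 1)
      norm_num at this
      rw [hu, map_add, coeff_one, if_neg (by omega), this, zero_add]
    have h4 := n4 (n + 1)
    rw [hun] at h4
    obtain ⟨z1, h1⟩ := val u hu (2 * m + 1) b n
    obtain ⟨z2, h2⟩ := val u hu 1 b n
    rw [h1, h2]
    generalize coeff (n + 1) u = a at h4
    push_cast
    have e3 : (2 * (m : ℤ) + 1) * a = 2 * (m * a) + a := by ring
    by_cases ha : a % 2 = 0
    · obtain ⟨a', rfl⟩ : ∃ a', a = 2 * a' := ⟨a / 2, by omega⟩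
      have e4 : (2 * (m : ℤ) + 1) * (2 * a') = 4 * (m * a') + 2 * a' := by ring
      rw [e4, em _ _ 1 (by omega) (by omega), em _ _ 1 (by omega) (by omega)]
    · rw [e3, em _ _ 0 (by omega) (by omega), em _ _ 0 (by omega) (by omega)]

end Pool.Agent.Results.MP_c46995_nt.Shift
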